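import Mathlib

/-!
Derivatives of all orders of Gibbs averages in the inverse temperature, with bounds.
-/

set_option autoImplicit false

open MeasureTheory Finset

namespace Pool.Agent.Helper40.TN

universe v

/-- Gibbs average of `u` with action `b * A` -/
noncomputable def gb {X : Type v} [MeasurableSpace X] (μ : Measure X) (A : X → ℝ) (u : X → ℂ)
    (b : ℝ) : ℂ :=
  (∫ x, u x * (Real.exp (b * A x) : ℂ) ∂μ) / ((∫ x, Real.exp (b * A x) ∂μ : ℝ) : ℂ)

/-- numerator -/
noncomputable def nm {X : Type v} [MeasurableSpace X] (μ : Measure X) (A : X → ℝ) (u : X → ℂ)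
    (b : ℝ) : ℂ := ∫ x, u x * (Real.exp (b * A x) : ℂ) ∂μ

section

variable {X : Type v} [TopologicalSpace X] [CompactSpace X] [SecondCountableTopology X]
  [MeasurableSpace X] [BorelSpace X] (μ : Measure X) [IsProbabilityMeasure μ]

omit [SecondCountableTopology X] in
theorem int_cont {E : Type*} [NormedAddCommGroup E] [SecondCountableTopologyEither X E]
    {f : X → E} (hf : Continuous f) : Integrable f μ := by
  obtain ⟨C, hC⟩ : ∃ C, ∀ x, ‖f x‖ ≤ C := by
    obtain ⟨C, hC⟩ := (isCompact_range hf.norm).bddAbove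
    exact ⟨C, fun x => hC ⟨x, rfl⟩⟩
  exact Integrable.of_bound hf.aestronglyMeasurable C (Filter.Eventually.of_forall hC)

theorem nm_deriv {A : X → ℝ} (hA : Continuous A) {a : ℝ} (ha : ∀ x, |A x| ≤ a) {u : X → ℂ}
    (hu : Continuous u) {C : ℝ} (hC : ∀ x, ‖u x‖ ≤ C) (b : ℝ) :
    HasDerivAt (nm μ A u) (nm μ A (fun x => u x * (A x : ℂ)) b) b := by
  have hcont : ∀ t : ℝ, Continuous fun x => u x * (Real.exp (t * A x) : ℂ) := fun t =>
    hu.mul (Complex.continuous_ofReal.comp (Real.continuous_exp.comp (continuous_const.mul hA)))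
  have hcont' : ∀ t : ℝ, Continuous fun x => (u x * (A x : ℂ)) * (Real.exp (t * A x) : ℂ) :=
    fun t => (hu.mul (Complex.continuous_ofReal.comp hA)).mul
      (Complex.continuous_ofReal.comp (Real.continuous_exp.comp (continuous_const.mul hA)))
  have key := hasDerivAt_integral_of_dominated_loc_of_deriv_le (μ := μ) (x₀ := b)
    (F := fun t x => u x * (Real.exp (t * A x) : ℂ))
    (F' := fun t x => (u x * (A x : ℂ)) * (Real.exp (t * A x) : ℂ))
    (s := Metric.ball b 1)
    (bound := fun _ => (C * a) * Real.exp ((|b| + 1) * a))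
    (Metric.ball_mem_nhds b one_pos)
    (Filter.Eventually.of_forall fun t => (hcont t).aestronglyMeasurable)
    (int_cont μ (hcont b)) (hcont' b).aestronglyMeasurable
    (Filter.Eventually.of_forall fun x t ht => ?_)
    (integrable_const _)
    (Filter.Eventually.of_forall fun x t ht => ?_)
  · exact key.2
  · have h0 : 0 ≤ C := (norm_nonneg _).trans (hC x)
    have h1 : 0 ≤ a := (abs_nonneg _).trans (ha x)
    rw [norm_mul, norm_mul, Complex.norm_real, Complex.norm_real, Real.norm_eq_abs, Real.norm_eq_abs,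
      abs_of_pos (Real.exp_pos _)]
    refine mul_le_mul (mul_le_mul (hC x) (ha x) (abs_nonneg _) h0) ?_ (Real.exp_pos _).le
      (mul_nonneg h0 h1)
    refine Real.exp_le_exp.2 ?_
    have h2 : |t| ≤ |b| + 1 := by
      have h3 : |t - b| < 1 := by
        have := ht
        rwa [Metric.mem_ball, Real.dist_eq] at this
      have h4 := abs_sub_abs_le_abs_sub t b
      linarith
    calc t * A x ≤ |t * A x| := le_abs_self _
      _ = |t| * |A x| := abs_mul _ _
      _ ≤ (|b| + 1) * a := mul_le_mul h2 (ha x) (abs_nonneg _) (by positivity)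
  · have h1 : HasDerivAt (fun t : ℝ => Real.exp (t * A x)) (Real.exp (t * A x) * A x) t := by
      have h2 : HasDerivAt (fun t : ℝ => t * A x) (A x) t := by
        simpa using (hasDerivAt_id t).mul_const (A x)
      exact h2.exp
    have h3 := (h1.ofReal_comp).const_mul (u x)
    refine h3.congr_deriv ?_
    push_cast
    ring

theorem nm_one {A : X → ℝ} (b : ℝ) :
    nm μ A (fun _ => 1) b = ((∫ x, Real.exp (b * A x) ∂μ : ℝ) : ℂ) := by
  unfold nm
  simp only [one_mul]
  exact integral_complex_ofReal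

theorem gb_eq {A : X → ℝ} (u : X → ℂ) (b : ℝ) :
    gb μ A u b = nm μ A u b / nm μ A (fun _ => 1) b := by
  rw [nm_one]
  rfl

theorem z_pos {A : X → ℝ} (hA : Continuous A) (b : ℝ) : 0 < ∫ x, Real.exp (b * A x) ∂μ := by
  have h1 : Continuous fun x => Real.exp (b * A x) :=
    Real.continuous_exp.comp (continuous_const.mul hA)
  exact integral_exp_pos (int_cont μ h1)

theorem gb_bound {A : X → ℝ} (hA : Continuous A) {u : X → ℂ}
    {C : ℝ} (hC : ∀ x, ‖u x‖ ≤ C) (b : ℝ) : ‖gb μ A u b‖ ≤ C := by
  have hZ := z_pos μ hA b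
  unfold gb
  rw [norm_div, Complex.norm_real, Real.norm_eq_abs, abs_of_pos hZ, div_le_iff₀ hZ,
    ← integral_const_mul]
  refine norm_integral_le_of_norm_le ?_ (Filter.Eventually.of_forall fun x => ?_)
  · exact (int_cont μ (Real.continuous_exp.comp (continuous_const.mul hA))).const_mul C
  · rw [norm_mul, Complex.norm_real, Real.norm_eq_abs, abs_of_pos (Real.exp_pos _)]
    exact mul_le_mul_of_nonneg_right (hC x) (Real.exp_pos _).le

theorem gb_hasDerivAt {A : X → ℝ} (hA : Continuous A) {a : ℝ} (ha : ∀ x, |A x| ≤ a) {u : X → ℂ}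
    (hu : Continuous u) {C : ℝ} (hC : ∀ x, ‖u x‖ ≤ C) (b : ℝ) :
    HasDerivAt (gb μ A u)
      (gb μ A (fun x => u x * (A x : ℂ)) b - gb μ A u b * gb μ A (fun x => (A x : ℂ)) b) b := by
  have hZ := z_pos μ hA b
  have hZ0 : nm μ A (fun _ => 1) b ≠ 0 := by
    rw [nm_one]
    exact_mod_cast hZ.ne'
  have h1 := nm_deriv μ hA ha hu hC b
  have h2 := nm_deriv μ hA ha (u := fun _ => (1 : ℂ)) continuous_const (C := 1)
    (fun x => by simp) b
  have h3 : nm μ A (fun x => (1 : ℂ) * (A x : ℂ)) b = nm μ A (fun x => (A x : ℂ)) b := by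
    congr 1
    funext x
    rw [one_mul]
  rw [h3] at h2
  have h4 := h1.div h2 hZ0
  have h5 : (fun t => nm μ A u t / nm μ A (fun _ => 1) t) = gb μ A u := by
    funext t
    exact (gb_eq μ u t).symm
  have h6 : HasDerivAt (gb μ A u) ((nm μ A (fun x => u x * (A x : ℂ)) b * nm μ A (fun _ => 1) b -
      nm μ A u b * nm μ A (fun x => (A x : ℂ)) b) / nm μ A (fun _ => 1) b ^ 2) b := by
    rw [← h5]
    exact h4
  refine h6.congr_deriv ?_
  rw [gb_eq μ (fun x => u x * (A x : ℂ)) b, gb_eq μ u b, gb_eq μ (fun x => (A x : ℂ)) b]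
  field_simp

end

theorem gb_aux (j : ℕ) : ∃ c : ℝ, 0 ≤ c ∧ ∀ (X : Type v) [TopologicalSpace X] [CompactSpace X]
    [SecondCountableTopology X] [MeasurableSpace X] [BorelSpace X] (μ : Measure X)
    [IsProbabilityMeasure μ] (A : X → ℝ) (a : ℝ) (u : X → ℂ) (C : ℝ), Continuous A →
    (∀ x, |A x| ≤ a) → Continuous u → (∀ x, ‖u x‖ ≤ C) →
    ∀ i ≤ j, ContDiff ℝ i (gb μ A u) ∧ ∀ b, ‖iteratedDeriv i (gb μ A u) b‖ ≤ c * C * a ^ i := by
  induction j with
  | zero =>
    refine ⟨1, zero_le_one, fun X _ _ _ _ _ μ _ A a u C hA ha hu hC i hi => ?_⟩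
    obtain rfl : i = 0 := by omega
    constructor
    · rw [Nat.cast_zero, contDiff_zero]
      exact continuous_iff_continuousAt.2 fun b => (gb_hasDerivAt μ hA ha hu hC b).continuousAt
    · intro b
      rw [iteratedDeriv_zero, one_mul, pow_zero, mul_one]
      exact gb_bound μ hA hC b
  | succ j ih =>
    obtain ⟨c, hc, h⟩ := ih
    refine ⟨c + 2 ^ j * c ^ 2, by positivity, fun X _ _ _ _ _ μ _ A a u C hA ha hu hC i hi => ?_⟩
    obtain ⟨x₀⟩ : Nonempty X := by
      by_contra hne
      rw [not_nonempty_iff] at hne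
      have h1 : μ Set.univ = 1 := measure_univ
      rw [Set.eq_empty_of_isEmpty (Set.univ : Set X), measure_empty] at h1
      exact zero_ne_one h1
    have ha0 : 0 ≤ a := (abs_nonneg _).trans (ha x₀)
    have hC0 : 0 ≤ C := (norm_nonneg _).trans (hC x₀)
    rcases Nat.lt_or_ge i (j + 1) with hlt | hge
    · obtain ⟨h1, h2⟩ := h X μ A a u C hA ha hu hC i (by omega)
      refine ⟨h1, fun b => (h2 b).trans ?_⟩
      have h3 : 0 ≤ 2 ^ j * c ^ 2 := by positivity
      have h4 : 0 ≤ C * a ^ i := by positivity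
      nlinarith
    · obtain rfl : i = j + 1 := by omega
      have hAc : Continuous fun x => (A x : ℂ) := Complex.continuous_ofReal.comp hA
      have hAn : ∀ x, ‖(A x : ℂ)‖ ≤ a := fun x => by
        rw [Complex.norm_real, Real.norm_eq_abs]
        exact ha x
      have huA : ∀ x, ‖u x * (A x : ℂ)‖ ≤ C * a := fun x => by
        rw [norm_mul]
        exact mul_le_mul (hC x) (hAn x) (norm_nonneg _) hC0
      have hd : deriv (gb μ A u) = (gb μ A fun x => u x * (A x : ℂ)) -
          fun b => gb μ A u b * gb μ A (fun x => (A x : ℂ)) b := by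
        funext b
        rw [(gb_hasDerivAt μ hA ha hu hC b).deriv]
        rfl
      have g1 := h X μ A a (fun x => u x * (A x : ℂ)) (C * a) hA ha (hu.mul hAc) huA
      have g2 := h X μ A a u C hA ha hu hC
      have g3 := h X μ A a (fun x => (A x : ℂ)) a hA ha hAc hAn
      have hmul : ContDiff ℝ (j : ℕ) fun b => gb μ A u b * gb μ A (fun x => (A x : ℂ)) b :=
        (g2 j le_rfl).1.mul (g3 j le_rfl).1
      constructor
      · rw [Nat.cast_succ, contDiff_succ_iff_deriv]
        refine ⟨fun b => (gb_hasDerivAt μ hA ha hu hC b).differentiableAt, ?_, ?_⟩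
        · intro hw
          exact absurd hw (by simp)
        · rw [hd]
          exact (g1 j le_rfl).1.sub hmul
      · intro b
        rw [iteratedDeriv_succ', hd]
        have e1 : iteratedDeriv j ((gb μ A fun x => u x * (A x : ℂ)) -
            fun b => gb μ A u b * gb μ A (fun x => (A x : ℂ)) b) b =
            iteratedDeriv j (gb μ A fun x => u x * (A x : ℂ)) b -
            iteratedDeriv j (fun b => gb μ A u b * gb μ A (fun x => (A x : ℂ)) b) b :=
          iteratedDeriv_sub (g1 j le_rfl).1.contDiffAt hmul.contDiffAt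
        rw [e1]
        have e2 : ‖iteratedDeriv j (fun b => gb μ A u b * gb μ A (fun x => (A x : ℂ)) b) b‖ ≤
            2 ^ j * c ^ 2 * C * a ^ (j + 1) := by
          rw [← norm_iteratedFDeriv_eq_norm_iteratedDeriv]
          refine (norm_iteratedFDeriv_mul_le (g2 j le_rfl).1 (g3 j le_rfl).1 b
            (n := j) le_rfl).trans ?_
          have e3 : ∀ i ∈ range (j + 1), (j.choose i : ℝ) *
              ‖iteratedFDeriv ℝ i (gb μ A u) b‖ *
              ‖iteratedFDeriv ℝ (j - i) (gb μ A fun x => (A x : ℂ)) b‖ ≤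
              (j.choose i : ℝ) * (c ^ 2 * C * a ^ (j + 1)) := by
            intro i hi
            have hi' : i ≤ j := by
              have := mem_range.1 hi
              omega
            rw [norm_iteratedFDeriv_eq_norm_iteratedDeriv,
              norm_iteratedFDeriv_eq_norm_iteratedDeriv, mul_assoc]
            refine mul_le_mul_of_nonneg_left ?_ (Nat.cast_nonneg _)
            refine (mul_le_mul ((g2 i hi').2 b) ((g3 (j - i) (by omega)).2 b) (norm_nonneg _)
              (by positivity)).trans (le_of_eq ?_)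
            have e4 : a ^ (j + 1) = a ^ i * a ^ (j - i) * a := by
              rw [← pow_add, show i + (j - i) = j by omega, pow_succ]
            rw [e4]
            ring
          refine (sum_le_sum e3).trans (le_of_eq ?_)
          rw [← sum_mul, ← Nat.cast_sum, Nat.sum_range_choose]
          push_cast
          ring
        have e5 := (g1 j le_rfl).2 b
        refine (norm_sub_le _ _).trans ?_
        calc _ ≤ c * (C * a) * a ^ j + 2 ^ j * c ^ 2 * C * a ^ (j + 1) := add_le_add e5 e2
          _ = (c + 2 ^ j * c ^ 2) * C * a ^ (j + 1) := by ring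

/-- All derivatives of a Gibbs average, with bounds depending only on the bounds of the action and
of the observable. -/
theorem gb_all (j : ℕ) : ∃ c : ℝ, 0 ≤ c ∧ ∀ (X : Type v) [TopologicalSpace X] [CompactSpace X]
    [SecondCountableTopology X] [MeasurableSpace X] [BorelSpace X] (μ : Measure X)
    [IsProbabilityMeasure μ] (A : X → ℝ) (a : ℝ) (u : X → ℂ) (C : ℝ), Continuous A →
    (∀ x, |A x| ≤ a) → Continuous u → (∀ x, ‖u x‖ ≤ C) →
    ContDiff ℝ j (gb μ A u) ∧ ∀ b, ‖iteratedDeriv j (gb μ A u) b‖ ≤ c * C * a ^ j := by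
  obtain ⟨c, hc, h⟩ := gb_aux.{v} j
  exact ⟨c, hc, fun X _ _ _ _ _ μ _ A a u C hA ha hu hC => h X μ A a u C hA ha hu hC j le_rfl⟩

/-- The derivatives of a Gibbs average, one after the other. -/
theorem gb_iter (j : ℕ) {X : Type v} [TopologicalSpace X] [CompactSpace X]
    [SecondCountableTopology X] [MeasurableSpace X] [BorelSpace X] (μ : Measure X)
    [IsProbabilityMeasure μ] {A : X → ℝ} (hA : Continuous A) {a : ℝ} (ha : ∀ x, |A x| ≤ a)
    {u : X → ℂ} (hu : Continuous u) {C : ℝ} (hC : ∀ x, ‖u x‖ ≤ C) (b : ℝ) :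
    HasDerivAt (iteratedDeriv j (gb μ A u)) (iteratedDeriv (j + 1) (gb μ A u) b) b := by
  obtain ⟨c, hc, h⟩ := gb_all.{v} (j + 1)
  have h1 := (h X μ A a u C hA ha hu hC).1
  rw [iteratedDeriv_succ]
  refine DifferentiableAt.hasDerivAt ?_
  exact (h1.differentiable_iteratedDeriv j (by exact_mod_cast Nat.lt_succ_self j)) b

end Pool.Agent.Helper40.TN
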